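import Pool.Agent.R321.RA0
import Pool.Agent.N880.HD.Fin

/-!
# Runs of simple critical zeros in the family of all primitive characters, heights up to any power of
the conductor
-/

open Complex Filter Topology Set MeasureTheory
open H370 (zset mult NN Nd Ns)

namespace Pool.Agent.J6H88.DZ

open H385 Pool.Agent.TH299.RunsL
open Pool.Agent.N880.HD (cH)

lemma mul_exp_neg_half_le (x : ℝ) : x * Real.exp (-x / 2) ≤ 1 := by
  have h1 : (1 + x / 4) ^ 2 ≤ Real.exp (x / 2) ∨ x ≤ 0 := by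
    rcases le_or_gt x 0 with h | h
    · exact Or.inr h
    · left
      have h2 := Real.add_one_le_exp (x / 4)
      have h3 : Real.exp (x / 2) = Real.exp (x / 4) ^ 2 := by
        rw [← Real.exp_nat_mul]; congr 1; push_cast; ring
      rw [h3]
      exact pow_le_pow_left₀ (by linarith) (by linarith) 2
  have h4 : Real.exp (-x / 2) * Real.exp (x / 2) = 1 := by
    rw [← Real.exp_add]; simp; ring_nf
  rcases h1 with h1 | h1
  · have h5 : x ≤ Real.exp (x / 2) := by nlinarith [sq_nonneg (x / 4 - 1)]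
    calc x * Real.exp (-x / 2) ≤ Real.exp (x / 2) * Real.exp (-x / 2) :=
          mul_le_mul_of_nonneg_right h5 (Real.exp_pos _).le
      _ = 1 := by rw [mul_comm]; exact h4
  · have : x * Real.exp (-x / 2) ≤ 0 := mul_nonpos_of_nonpos_of_nonneg h1 (Real.exp_pos _).le
    linarith

/-- the L-functions of all the primitive characters with conductor in `(X, Y]` have many zeros -/
theorem fam_many2 (τ B : ℝ) (hτ : 0 ≤ τ) : ∃ X0 : ℝ, 1 ≤ X0 ∧ ∀ (X Y : ℕ) (T η : ℝ), X0 ≤ X →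
    0 < η → η ≤ 1 → (Y : ℝ) ≤ (X : ℝ) ^ (1 + η) → 4 * (Real.log X) ^ 2 ≤ T → T ≤ (X : ℝ) ^ τ →
    1 ≤ T ∧ ∀ (q : ℕ) (χ : DirichletCharacter ℂ q), X < q → q ≤ Y → χ.IsPrimitive →
      B ≤ (NN (LF q χ) T (2 * T) : ℝ) := by
  obtain ⟨A, hA, hgood⟩ := good_dirichlet_U
  obtain ⟨C2, hC2, hlow⟩ := N_lower A hA
  have hpi := Real.pi_pos
  set D : ℝ := 1 + (2 + τ) + (2 + τ) ^ 2 with hD
  have hD0 : 0 < D := by positivity
  set L0 : ℝ := 12 + 2 * Real.pi * (D * C2 + 1) + |B| with hL0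
  refine ⟨max 1 (Real.exp L0), le_max_left _ _, ?_⟩
  intro X Y T η hX hη hη1 hY hT1 hT2
  have hXe : Real.exp L0 ≤ X := (le_max_right _ _).trans hX
  have hX1 : (1 : ℝ) ≤ X := (le_max_left _ _).trans hX
  have hXpos : (0 : ℝ) < X := by linarith
  set L : ℝ := Real.log X with hL
  have hLL0 : L0 ≤ L := by
    rw [hL, Real.le_log_iff_exp_le hXpos]; exact hXe
  have hB0 := abs_nonneg B
  have hC20 : 0 ≤ 2 * Real.pi * (D * C2 + 1) := by positivity
  have hL12 : 12 ≤ L := by rw [hL0] at hLL0; linarith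
  have hLB : |B| ≤ L := by rw [hL0] at hLL0; linarith
  have hLC : 2 * Real.pi * (D * C2 + 1) ≤ L := by rw [hL0] at hLL0; linarith
  have hXτ : (X : ℝ) ^ τ = Real.exp (τ * L) := by
    rw [Real.rpow_def_of_pos hXpos, mul_comm]
  have hT2' : T ≤ Real.exp (τ * L) := by rw [← hXτ]; exact hT2
  have hLL : 12 * L ≤ L ^ 2 := by nlinarith
  have p1 : 3 ≤ L := by linarith
  have p2 : 8 * L ≤ T := by linarith
  have hTpos : 0 < T := by linarith
  have hT1' : 1 ≤ T := by linarith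
  refine ⟨hT1', fun q χ hq1 hq2 hχ => ?_⟩
  have hq : NeZero q := ⟨by omega⟩
  have hqX : (X : ℝ) ≤ q := by exact_mod_cast hq1.le
  have hqY : (q : ℝ) ≤ Y := by exact_mod_cast hq2
  have hq0 : (0 : ℝ) < q := by linarith
  have hYpos : (0 : ℝ) < Y := by linarith
  have hYη : Real.log (Y * T) ≤ (2 + τ) * L := by
    rw [Real.log_mul hYpos.ne' hTpos.ne']
    have h1 : Real.log Y ≤ (1 + η) * L := by
      have := Real.log_le_log hYpos hY
      rwa [Real.log_rpow hXpos] at this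
    have h2 : Real.log T ≤ τ * L := by
      have := Real.log_le_log hTpos hT2'
      rwa [Real.log_exp] at this
    have h3 : η * L ≤ 1 * L := mul_le_mul_of_nonneg_right hη1 (by linarith)
    linarith
  have hl := hlow q (LF q χ) _ (by linarith) (by rw [LF_eq]; exact hgood q χ hχ) T L p1 p2
  have hlog1 : L ≤ Real.log (q * T) := by
    rw [hL]
    refine Real.log_le_log hXpos ?_
    calc (X : ℝ) = X * 1 := (mul_one _).symm
      _ ≤ q * T := mul_le_mul hqX hT1' zero_le_one hq0.le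
  have hlog2 : Real.log (q * T) ≤ (2 + τ) * L :=
    (Real.log_le_log (by positivity) (mul_le_mul_of_nonneg_right hqY hTpos.le)).trans hYη
  have a1 : T / (2 * Real.pi) * L ≤ T / (2 * Real.pi) * Real.log (q * T) :=
    mul_le_mul_of_nonneg_left hlog1 (by positivity)
  have hLT : L ^ 2 ≤ T := by nlinarith
  have a2 : L * Real.log (q * T) ≤ (2 + τ) * T := by
    have h1 : L * Real.log (q * T) ≤ L * ((2 + τ) * L) :=
      mul_le_mul_of_nonneg_left hlog2 (by linarith)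
    have h2 : (2 + τ) * L ^ 2 ≤ (2 + τ) * T := mul_le_mul_of_nonneg_left hLT (by linarith)
    calc _ ≤ _ := h1
      _ = (2 + τ) * L ^ 2 := by ring
      _ ≤ _ := h2
  have a3 : T * Real.log (q * T) ^ 2 * Real.exp (-L ^ 2 / 2) ≤ (2 + τ) ^ 2 * T := by
    have b1 : Real.log (q * T) ^ 2 ≤ ((2 + τ) * L) ^ 2 := pow_le_pow_left₀ (by linarith) hlog2 2
    have b2 : Real.log (q * T) ^ 2 * Real.exp (-L ^ 2 / 2) ≤ (2 + τ) ^ 2 := by
      refine le_trans (mul_le_mul_of_nonneg_right b1 (Real.exp_pos _).le) ?_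
      have h6 := mul_exp_neg_half_le (L ^ 2)
      calc ((2 + τ) * L) ^ 2 * Real.exp (-L ^ 2 / 2) =
            (2 + τ) ^ 2 * (L ^ 2 * Real.exp (-L ^ 2 / 2)) := by ring
        _ ≤ (2 + τ) ^ 2 * 1 := mul_le_mul_of_nonneg_left h6 (by positivity)
        _ = (2 + τ) ^ 2 := mul_one _
    calc _ = T * (Real.log (q * T) ^ 2 * Real.exp (-L ^ 2 / 2)) := by ring
      _ ≤ T * (2 + τ) ^ 2 := mul_le_mul_of_nonneg_left b2 hTpos.le
      _ = (2 + τ) ^ 2 * T := mul_comm _ _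
  have a4 : C2 * (T + L * Real.log (q * T) + T * Real.log (q * T) ^ 2 * Real.exp (-L ^ 2 / 2)) ≤
      C2 * (D * T) := by
    refine mul_le_mul_of_nonneg_left ?_ hC2.le
    rw [hD]
    linarith
  have a5 : (D * C2 + 1) * T ≤ T / (2 * Real.pi) * L := by
    rw [div_mul_eq_mul_div, le_div_iff₀ (by positivity)]
    have := mul_le_mul_of_nonneg_left hLC hTpos.le
    linarith
  have a6 : L ≤ L ^ 2 := by nlinarith
  have a7 := le_abs_self B
  linarith

/-- from the simple zeros of a family to runs -/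
theorem fam_runs_core (m : ℕ) {κ ε T : ℝ} {X Y : ℕ} (hε : 0 < ε) (hT : 1 ≤ T)
    (hN : ∀ (q : ℕ) (χ : DirichletCharacter ℂ q), X < q → q ≤ Y → χ.IsPrimitive →
      max 1 (m / ε) ≤ (NN (LF q χ) T (2 * T) : ℝ))
    (h1 : κ * primFam X Y (fun q χ => (NN (LF q χ) T (2 * T) : ℝ)) ≤
        primFam X Y (fun q χ => (Ns (LF q χ) T (2 * T) : ℝ))) (A : ℝ) (hA : 0 < A) :
      (κ - m * ((1 - κ) / 2) - m / A - ε) *
          primFam X Y (fun q χ => (NN (LF q χ) T (2 * T) : ℝ)) ≤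
        primFam X Y (fun q χ => ({t : ℝ | RunA (LF q χ) m (A * T / NN (LF q χ) T (2 * T)) T
          (2 * T) t}.ncard : ℝ)) ∧
      (κ - (m + 1) * ((1 - κ) / 2) - m / A - ε) *
          primFam X Y (fun q χ => (NN (LF q χ) T (2 * T) : ℝ)) ≤
        primFam X Y (fun q χ => ({t : ℝ | RunB (LF q χ) m (A * T / NN (LF q χ) T (2 * T)) T
          (2 * T) t}.ncard : ℝ)) := by
  have hm : (0 : ℝ) ≤ m := Nat.cast_nonneg m
  -- pointwise
  have hpt : ∀ (q : ℕ) (χ : DirichletCharacter ℂ q), X < q → q ≤ Y → χ.IsPrimitive →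
      (1 + m / 2) * (Ns (LF q χ) T (2 * T) : ℝ) - (m / 2 + m / A + ε) * (NN (LF q χ) T (2 * T) : ℝ) ≤
        ({t : ℝ | RunA (LF q χ) m (A * T / NN (LF q χ) T (2 * T)) T (2 * T) t}.ncard : ℝ) ∧
      (3 / 2 + m / 2) * (Ns (LF q χ) T (2 * T) : ℝ) -
          ((m + 1) / 2 + m / A + ε) * (NN (LF q χ) T (2 * T) : ℝ) ≤
        ({t : ℝ | RunB (LF q χ) m (A * T / NN (LF q χ) T (2 * T)) T (2 * T) t}.ncard : ℝ) := by
    intro q χ hq1 hq2 hχ
    have hq : NeZero q := ⟨by omega⟩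
    have hg : H370.GoodL (LF q χ) := by rw [LF_eq]; exact H370.good_dirichlet χ hχ
    have hn := hN q χ hq1 hq2 hχ
    have hn1 : (1 : ℝ) ≤ NN (LF q χ) T (2 * T) := (le_max_left _ _).trans hn
    have hn2 : (m : ℝ) / ε ≤ NN (LF q χ) T (2 * T) := (le_max_right _ _).trans hn
    rw [div_le_iff₀ hε] at hn2
    have hTpos : 0 < T := by linarith
    have hL : 0 < A * T / (NN (LF q χ) T (2 * T) : ℝ) := by positivity
    obtain ⟨b1, b2⟩ := runs_window hg hT (show T ≤ 2 * T by linarith) m hL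
    have h6 : (m : ℝ) * (2 * T - T) / (A * T / (NN (LF q χ) T (2 * T) : ℝ)) =
        m / A * (NN (LF q χ) T (2 * T) : ℝ) := by
      field_simp
      ring
    rw [h6] at b1 b2
    constructor
    · refine le_trans (le_of_sub_nonneg ?_) b1
      have : (Ns (LF q χ) T (2 * T) : ℝ) -
            m * (((NN (LF q χ) T (2 * T) : ℝ) - Ns (LF q χ) T (2 * T)) / 2 + 1) -
            m / A * (NN (LF q χ) T (2 * T) : ℝ) -
          ((1 + m / 2) * (Ns (LF q χ) T (2 * T) : ℝ) -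
            (m / 2 + m / A + ε) * (NN (LF q χ) T (2 * T) : ℝ)) =
          (NN (LF q χ) T (2 * T) : ℝ) * ε - m := by ring
      rw [this]
      linarith
    · refine le_trans (le_of_sub_nonneg ?_) b2
      have : (Ns (LF q χ) T (2 * T) : ℝ) -
            ((NN (LF q χ) T (2 * T) : ℝ) - Ns (LF q χ) T (2 * T)) / 2 -
            m * (((NN (LF q χ) T (2 * T) : ℝ) - Ns (LF q χ) T (2 * T)) / 2 + 1) -
            m / A * (NN (LF q χ) T (2 * T) : ℝ) -
          ((3 / 2 + m / 2) * (Ns (LF q χ) T (2 * T) : ℝ) -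
            ((m + 1) / 2 + m / A + ε) * (NN (LF q χ) T (2 * T) : ℝ)) =
          (NN (LF q χ) T (2 * T) : ℝ) * ε - m := by ring
      rw [this]
      linarith
  set SN := primFam X Y (fun q χ => (NN (LF q χ) T (2 * T) : ℝ)) with hSN
  set SS := primFam X Y (fun q χ => (Ns (LF q χ) T (2 * T) : ℝ)) with hSS
  have l1 := primFam_lin X Y (1 + m / 2) (m / 2 + m / A + ε)
    (fun q χ => (Ns (LF q χ) T (2 * T) : ℝ)) (fun q χ => (NN (LF q χ) T (2 * T) : ℝ))
  have l2 := primFam_lin X Y (3 / 2 + m / 2) ((m + 1) / 2 + m / A + ε)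
    (fun q χ => (Ns (LF q χ) T (2 * T) : ℝ)) (fun q χ => (NN (LF q χ) T (2 * T) : ℝ))
  have m1 := primFam_mono X Y _ _ (fun q χ h1 h2 h3 => (hpt q χ h1 h2 h3).1)
  have m2 := primFam_mono X Y _ _ (fun q χ h1 h2 h3 => (hpt q χ h1 h2 h3).2)
  rw [l1] at m1
  rw [l2] at m2
  rw [← hSN, ← hSS] at m1 m2
  have k1 := mul_le_mul_of_nonneg_left h1 (show (0 : ℝ) ≤ 1 + m / 2 by positivity)
  have k2 := mul_le_mul_of_nonneg_left h1 (show (0 : ℝ) ≤ 3 / 2 + m / 2 by positivity)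
  constructor
  · refine le_trans ?_ m1
    have e : (1 + (m : ℝ) / 2) * (κ * SN) - (m / 2 + m / A + ε) * SN =
        (κ - m * ((1 - κ) / 2) - m / A - ε) * SN := by ring
    linarith
  · refine le_trans ?_ m2
    have e : (3 / 2 + (m : ℝ) / 2) * (κ * SN) - ((m + 1) / 2 + m / A + ε) * SN =
        (κ - (m + 1) * ((1 - κ) / 2) - m / A - ε) * SN := by ring
    linarith

/-- a family average of nonnegative quantities is nonnegative -/
lemma primFam_nonneg {X Y : ℕ} {f : (q : ℕ) → DirichletCharacter ℂ q → ℝ}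
    (h : ∀ q χ, 0 ≤ f q χ) : 0 ≤ primFam X Y f := by
  have h0 := primFam_lin X Y 0 0 f f
  have h1 := primFam_mono X Y (fun q χ => 0 * f q χ - 0 * f q χ) f
    (fun q χ _ _ _ => by have := h q χ; linarith)
  rw [h0] at h1
  linarith

/-- **runs in the family, heights up to any power of the conductor** -/
theorem fam_runs2 (τ : ℝ) (hτ : 0 ≤ τ) (m : ℕ) {ε : ℝ} (hε : 0 < ε) :
    ∃ K η X0 : ℝ, 1 ≤ K ∧ 0 < η ∧ 1 ≤ X0 ∧
    ∀ (X Y : ℕ) (T : ℝ), X0 ≤ X → K * X ≤ Y → (Y : ℝ) ≤ (X : ℝ) ^ (1 + η) →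
      4 * (Real.log X) ^ 2 ≤ T → T ≤ (X : ℝ) ^ τ → ∀ A : ℝ, 0 < A →
      (2 - cH ((2 + τ) / (1 + τ)) - m * ((cH ((2 + τ) / (1 + τ)) - 1) / 2) - m / A - ε) *
          primFam X Y (fun q χ => (NN (LF q χ) T (2 * T) : ℝ)) ≤
        primFam X Y (fun q χ => ({t : ℝ | RunA (LF q χ) m (A * T / NN (LF q χ) T (2 * T)) T
          (2 * T) t}.ncard : ℝ)) ∧
      (2 - cH ((2 + τ) / (1 + τ)) - (m + 1) * ((cH ((2 + τ) / (1 + τ)) - 1) / 2) - m / A - ε) *
          primFam X Y (fun q χ => (NN (LF q χ) T (2 * T) : ℝ)) ≤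
        primFam X Y (fun q χ => ({t : ℝ | RunB (LF q χ) m (A * T / NN (LF q χ) T (2 * T)) T
          (2 * T) t}.ncard : ℝ)) := by
  have hm : (0 : ℝ) ≤ m := Nat.cast_nonneg m
  set c : ℝ := cH ((2 + τ) / (1 + τ)) with hc
  set δ : ℝ := ε / (2 * (2 + m)) with hδ
  have hδ0 : 0 < δ := by positivity
  have hδm : (2 + m) * δ = ε / 2 := by rw [hδ]; field_simp
  obtain ⟨K, η, X1, hK, hη, hX1, hmain⟩ := Pool.Agent.N880.HD.fin_main τ δ hτ hδ0
  obtain ⟨X2, hX2, hmany⟩ := fam_many2 τ (max 1 (m / (ε / 2))) hτ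
  refine ⟨K, min η 1, max X1 X2, hK, lt_min hη one_pos, hX1.trans (le_max_left _ _), ?_⟩
  intro X Y T hX hKX hY hT1 hT2 A hA
  have hXX1 : X1 ≤ X := (le_max_left _ _).trans hX
  have hXX2 : X2 ≤ X := (le_max_right _ _).trans hX
  have hXone : (1 : ℝ) ≤ X := hX2.trans hXX2
  obtain ⟨hTone, hN⟩ := hmany X Y T (min η 1) hXX2 (lt_min hη one_pos) (min_le_right _ _) hY hT1 hT2
  have h1 := (hmain X Y T hXX1 hKX
    (hY.trans (Real.rpow_le_rpow_of_exponent_le hXone (by linarith [min_le_left η 1]))) hT1 hT2).1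
  obtain ⟨r1, r2⟩ := fam_runs_core m (half_pos hε) hTone hN h1 A hA
  have hSN : 0 ≤ primFam X Y (fun q χ => (NN (LF q χ) T (2 * T) : ℝ)) :=
    primFam_nonneg fun q χ => Nat.cast_nonneg _
  constructor
  · refine le_trans (mul_le_mul_of_nonneg_right ?_ hSN) r1
    have : (1 + (m : ℝ) / 2) * δ ≤ ε / 2 := by
      rw [← hδm]; exact mul_le_mul_of_nonneg_right (by linarith) hδ0.le
    linarith
  · refine le_trans (mul_le_mul_of_nonneg_right ?_ hSN) r2
    have : (3 / 2 + (m : ℝ) / 2) * δ ≤ ε / 2 := by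
      rw [← hδm]; exact mul_le_mul_of_nonneg_right (by linarith) hδ0.le
    linarith

end Pool.Agent.J6H88.DZ
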