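import Pool.Agent.Y762.FinJ
import Pool.Agent.H295R2.SI.Fin

/-!
# Simple and distinct zeros of one L-function, uniformly in the conductor
-/

open Complex Filter Topology Set MeasureTheory
open H370 (zset mult NN Nd Ns)

set_option autoImplicit false
set_option maxHeartbeats 4000000

namespace Pool.Agent.J6H88.DZ

open H385
open Pool.Agent.Y762
open Pool.Agent.TH243.CYC (LP)

/-- simple zeros of a single character, uniformly in the conductor -/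
theorem single_s (h ε : ℝ) (hh0 : 0 < h) (hh1 : h ≤ 1) (hε : 0 < ε) :
    ∃ C : ℝ, 1 ≤ C ∧ ∀ (q : ℕ) [NeZero q] (ψ : DirichletCharacter ℂ q) (T : ℝ),
      ψ.IsPrimitive → C ≤ T → (q * T) ^ h ≤ T →
      (2 - (cH h + ε)) * (NN (DirichletCharacter.LFunction ψ) T (2 * T) : ℝ) ≤
        (Ns (DirichletCharacter.LFunction ψ) T (2 * T) : ℝ) := by
  classical
  obtain ⟨Ca, hCa, hmsh⟩ := single_msh
  obtain ⟨s, e, hs0, hs1, he0, heε, hβ0, hβ1, hconst⟩ := const_choice h ε hh0 hh1 hε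
  obtain ⟨hγ0, hγπ⟩ := gam_ok h hh0 hh1
  obtain ⟨C0, ζ1, hC0, hζ1, H⟩ := core_gen Ca (Real.sqrt 2 * h) (h * (1 - s)) e hCa hγ0 hγπ
    hβ0 hβ1 he0
  obtain ⟨C1, hC1, h1⟩ := hmsh h s ζ1 C0 hh0 hh1 hs0 hs1 hζ1 hC0
  refine ⟨C1, hC1, ?_⟩
  intro q _ ψ T hprim hT hqT
  obtain ⟨p1, V, p3, p4, p5⟩ := h1 q ψ T hT hqT
  have hT1 : 1 ≤ T := hC1.trans hT
  have hq1 : (1 : ℝ) ≤ q := by exact_mod_cast (NeZero.one_le : 1 ≤ q)
  have hcond : ∑ χ ∈ ({ψ} : Finset (DirichletCharacter ℂ q)),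
      (Real.log q - Real.log χ.conductor) ≤
      ζ1 * Real.log (q * T) * ((({ψ} : Finset (DirichletCharacter ℂ q)).card : ℕ) : ℝ) := by
    have hc : ψ.conductor = q := hprim
    rw [Finset.sum_singleton, hc, sub_self]
    have : 0 ≤ Real.log (q * T) := Real.log_nonneg (one_le_mul_of_one_le_of_one_le hq1 hT1)
    positivity
  obtain ⟨r1, -, -⟩ := H q T V {ψ} p1 (by simp) p3 p4 hcond p5
  have hc := Pool.Agent.TH243.CYC.counts ψ T (2 * T) (by linarith)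
  rw [hc.1, hc.2.1]
  rw [Finset.sum_singleton, Finset.sum_singleton] at r1
  have hSN0 : 0 ≤ (NN (LP ψ) T (2 * T) : ℝ) := Nat.cast_nonneg _
  have h1 := mul_le_mul_of_nonneg_right hconst hSN0
  linarith

/-- the condition on the height in terms of a power of the conductor -/
lemma height_pow {q : ℕ} [NeZero q] {T τ : ℝ} (hτ : 0 < τ) (hT1 : 1 ≤ T)
    (hT : (q : ℝ) ^ τ ≤ T) : (q * T) ^ (τ / (1 + τ)) ≤ T := by
  have hq1 : (1 : ℝ) ≤ q := by exact_mod_cast (NeZero.one_le : 1 ≤ q)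
  have hq0 : (0 : ℝ) < q := by linarith
  have hT0 : 0 < T := by linarith
  have h1 : (0 : ℝ) < 1 + τ := by linarith
  have h2 : (q * T) ^ (τ / (1 + τ)) ≤ ((T : ℝ) ^ (1 + τ)) ^ ((1 : ℝ) / (1 + τ)) := by
    have e : (q * T) ^ (τ / (1 + τ)) = ((q * T) ^ τ) ^ ((1 : ℝ) / (1 + τ)) := by
      rw [← Real.rpow_mul (by positivity)]; congr 1; ring
    rw [e]
    refine Real.rpow_le_rpow (by positivity) ?_ (by positivity)
    rw [Real.mul_rpow hq0.le hT0.le, Real.rpow_add hT0, Real.rpow_one]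
    exact mul_le_mul_of_nonneg_right hT (by positivity)
  refine h2.trans (le_of_eq ?_)
  rw [← Real.rpow_mul hT0.le, mul_one_div_cancel h1.ne', Real.rpow_one]

/-- the chord of `1 / x` lies above the function -/
lemma chord (x : ℝ) (hx : 1 ≤ x) : ∃ j : ℕ, 1 ≤ j ∧ 1 / x ≤ (2 * j + 1 - x) / (j * (j + 1)) := by
  have hx0 : 0 ≤ x := by linarith
  refine ⟨⌊x⌋₊, (Nat.one_le_floor_iff x).mpr hx, ?_⟩
  have h1 : ((⌊x⌋₊ : ℕ) : ℝ) ≤ x := Nat.floor_le hx0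
  have h2 : x < (⌊x⌋₊ : ℕ) + 1 := Nat.lt_floor_add_one x
  have h3 : 1 ≤ ((⌊x⌋₊ : ℕ) : ℝ) := by exact_mod_cast (Nat.one_le_floor_iff x).mpr hx
  set a : ℝ := ((⌊x⌋₊ : ℕ) : ℝ) with ha
  rw [div_le_div_iff₀ (by linarith) (by positivity)]
  nlinarith [mul_nonneg (sub_nonneg.mpr h1) (sub_nonneg.mpr h2.le)]

/-- the positive proportion, for all heights above a power of the conductor -/
theorem uni_pos (h ε : ℝ) (hh0 : 0 < h) (hh1 : h ≤ 1) (hε : 0 < ε) :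
    ∃ C : ℝ, 1 ≤ C ∧ ∀ (q : ℕ) [NeZero q] (ψ : DirichletCharacter ℂ q) (T : ℝ),
      ψ.IsPrimitive → C ≤ T → (q * T) ^ h ≤ T →
      (3 * h / (3 + h ^ 2) - ε) * (NN (DirichletCharacter.LFunction ψ) T (2 * T) : ℝ) ≤
        (Nd (DirichletCharacter.LFunction ψ) T (2 * T) : ℝ) := by
  have hx : cH h ≤ 1 / h + h / 3 := H295SI.cc_le h hh0 hh1
  have hx1 : 1 ≤ 1 / h + h / 3 := by
    have : 1 ≤ 1 / h := by rw [le_div_iff₀ hh0]; linarith
    have : 0 ≤ h / 3 := by positivity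
    linarith
  obtain ⟨j, hj, hjc⟩ := chord (1 / h + h / 3) hx1
  obtain ⟨C, hC, H⟩ := single_j j hj h ε hh0 hh1 hε
  refine ⟨C, hC, fun q _ ψ T hψ hT hqT => ?_⟩
  obtain ⟨r1, -⟩ := H q ψ T hψ hT hqT
  have hj1 : (1 : ℝ) ≤ j := by exact_mod_cast hj
  have hjj : 0 < (j : ℝ) * (j + 1) := by positivity
  have e1 : 3 * h / (3 + h ^ 2) = 1 / (1 / h + h / 3) := by
    field_simp
  have hN : (0 : ℝ) ≤ (NN (DirichletCharacter.LFunction ψ) T (2 * T) : ℝ) := Nat.cast_nonneg _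
  have e2 : 3 * h / (3 + h ^ 2) * (j * (j + 1)) ≤ 2 * j + 1 - cH h := by
    rw [e1]
    have h2 := (le_div_iff₀ hjj).1 hjc
    linarith
  refine le_of_mul_le_mul_left ?_ hjj
  refine le_trans ?_ r1
  have e3 : (j : ℝ) * (j + 1) * ((3 * h / (3 + h ^ 2) - ε) *
      (NN (DirichletCharacter.LFunction ψ) T (2 * T) : ℝ)) =
      (3 * h / (3 + h ^ 2) * (j * (j + 1)) - (j * (j + 1)) * ε) *
      (NN (DirichletCharacter.LFunction ψ) T (2 * T) : ℝ) := by ring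
  rw [e3]
  refine mul_le_mul_of_nonneg_right ?_ hN
  have h4 : ε ≤ (j : ℝ) * (j + 1) * ε := by
    have : 1 ≤ (j : ℝ) * (j + 1) := by nlinarith
    nlinarith
  linarith

end Pool.Agent.J6H88.DZ
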